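import Pool.Agent.Q299.GB.Cut
import Pool.Agent.W788.BK.Fin

/-!
The Gaussian potential agrees, in a box of stretched exponential size, with a bounded one.
-/

set_option autoImplicit false
set_option linter.unusedSectionVars false

open scoped BigOperators
open MeasureTheory ProbabilityTheory

namespace Q299.GB

open Pool.Agent.W788.LD.Main Pool.Agent.W788.LD.Spec Pool.Agent.W788.BK
open Pool.Agent.H4R2.LO (Zd)

variable {d : ℕ}

/-- the sites of a box -/
noncomputable def box (d n : ℕ) : Finset (Zd d) := Fintype.piFinset fun _ : Fin d => Finset.Icc (-(n : ℤ)) n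

lemma box_card (d n : ℕ) : (box d n).card = (2 * n + 1) ^ d := by
  unfold box
  rw [Fintype.card_piFinset]
  have h : ∀ i : Fin d, (Finset.Icc (-(n : ℤ)) n).card = 2 * n + 1 := by
    intro i
    rw [Int.card_Icc]
    omega
  rw [Finset.prod_congr rfl fun i _ => h i, Finset.prod_const, Finset.card_univ, Fintype.card_fin]

lemma mem_box {x : Zd d} {r : ℝ} (h : ‖x‖ ≤ r) : x ∈ box d ⌊r⌋₊ := by
  unfold box
  rw [Fintype.mem_piFinset]
  intro i
  have h1 : ‖x i‖ ≤ r := (norm_le_pi_norm x i).trans h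
  have h2 : (|x i| : ℝ) ≤ r := by
    rw [← Int.norm_eq_abs] at *
    exact h1
  have h3 : ((|x i|.toNat : ℕ) : ℝ) ≤ r := by
    have : ((|x i|.toNat : ℕ) : ℤ) = |x i| := Int.toNat_of_nonneg (abs_nonneg _)
    have h4 : ((|x i|.toNat : ℕ) : ℝ) = ((|x i| : ℤ) : ℝ) := by exact_mod_cast congrArg (fun z : ℤ => (z : ℝ)) this
    rw [h4]
    push_cast
    exact h2
  have h5 : |x i|.toNat ≤ ⌊r⌋₊ := Nat.le_floor h3
  rw [Finset.mem_Icc]
  have h6 := abs_le.mp (le_refl |x i|)
  omega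

/-- truncation -/
noncomputable def tr (B s : ℝ) : ℝ := if |s| ≤ B then s / B else 0

lemma tr_meas (B : ℝ) : Measurable (tr B) := by
  unfold tr
  refine Measurable.ite (measurableSet_le (by fun_prop) measurable_const) (by fun_prop) measurable_const

lemma tr_le {B : ℝ} (hB : 0 < B) (s : ℝ) : |tr B s| ≤ 1 := by
  unfold tr
  split_ifs with h
  · rw [abs_div, abs_of_pos hB, div_le_one hB]
    exact h
  · simp

lemma tr_neg (B s : ℝ) : tr B (-s) = -tr B s := by
  unfold tr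
  rw [abs_neg]
  split_ifs <;> ring

lemma tr_mean (B : ℝ) : ∫ s, tr B s ∂(gaussianReal 0 1) = 0 := by
  have h1 : (gaussianReal 0 1).map (fun x : ℝ => -x) = gaussianReal 0 1 := by
    rw [gaussianReal_map_neg, neg_zero]
  have h2 : ∫ s, tr B s ∂(gaussianReal 0 1) = ∫ s, tr B (-s) ∂(gaussianReal 0 1) := by
    conv_lhs => rw [← h1]
    rw [integral_map measurable_neg.aemeasurable (tr_meas B).aestronglyMeasurable]
  have h3 : ∫ s, tr B (-s) ∂(gaussianReal 0 1) = -∫ s, tr B s ∂(gaussianReal 0 1) := by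
    simp_rw [tr_neg]
    exact integral_neg _
  linarith

/-- Gaussian tail -/
lemma tail {B : ℝ} (hB : 0 ≤ B) :
    (gaussianReal 0 1).real {s | ¬ |s| ≤ B} ≤ 2 * Real.exp (-B ^ 2 / 2) := by
  have key : (gaussianReal 0 1).real {s | B ≤ s} ≤ Real.exp (-B ^ 2 / 2) := by
    have h1 := measure_ge_le_exp_mul_mgf (μ := gaussianReal 0 1) (X := fun x : ℝ => x) B hB
      (integrable_exp_mul_gaussianReal B)
    rw [mgf_fun_id_gaussianReal, ← Real.exp_add] at h1
    refine h1.trans (le_of_eq ?_)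
    congr 1
    simp only [NNReal.coe_one]
    ring
  have hneg : (gaussianReal 0 1).real {s | s ≤ -B} = (gaussianReal 0 1).real {s | B ≤ s} := by
    have h1 : (gaussianReal 0 1).map (fun x : ℝ => -x) = gaussianReal 0 1 := by
      rw [gaussianReal_map_neg, neg_zero]
    have hms : MeasurableSet {s : ℝ | B ≤ s} := measurableSet_le measurable_const measurable_id
    have hmn : Measurable fun x : ℝ => -x := measurable_neg
    conv_rhs => rw [← h1]
    rw [map_measureReal_apply hmn hms]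
    congr 1
    ext s
    simp only [Set.mem_ofPred_eq, Set.mem_preimage]
    constructor <;> intro h <;> linarith
  have hsub : {s : ℝ | ¬ |s| ≤ B} ⊆ {s | B ≤ s} ∪ {s | s ≤ -B} := by
    intro s hs
    simp only [Set.mem_ofPred_eq, not_le, Set.mem_union] at hs ⊢
    rcases lt_abs.mp hs with h | h
    · left; linarith
    · right; linarith
  calc _ ≤ (gaussianReal 0 1).real ({s | B ≤ s} ∪ {s | s ≤ -B}) := measureReal_mono hsub
    _ ≤ _ := measureReal_union_le _ _
    _ ≤ _ := by rw [hneg]; linarith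

/-! ### Numbers -/

lemma grow {a b : ℝ} (hab : a < b) (c : ℝ) :
    ∀ᶠ X : ℝ in Filter.atTop, c * Real.exp (a * X) ≤ Real.exp (b * X) := by
  have h1 : Filter.Tendsto (fun X : ℝ => (b - a) * X) Filter.atTop Filter.atTop :=
    Filter.tendsto_id.const_mul_atTop (by linarith)
  filter_upwards [(Real.tendsto_exp_atTop.comp h1).eventually_ge_atTop c] with X hX
  have h2 : Real.exp (b * X) = Real.exp ((b - a) * X) * Real.exp (a * X) := by
    rw [← Real.exp_add]; congr 1; ring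
  rw [h2]
  exact mul_le_mul_of_nonneg_right hX (Real.exp_pos _).le

lemma grow2 {k c : ℝ} (hk : 0 < k) (hc : 0 < c) (C : ℝ) :
    ∀ᶠ X : ℝ in Filter.atTop, C * Real.exp (k * X) ≤ Real.exp (Real.exp (c * X)) := by
  filter_upwards [grow (show k < k + 1 by linarith) C, Filter.eventually_ge_atTop (2 * (k + 1) / c ^ 2),
    Filter.eventually_ge_atTop (0 : ℝ)] with X h1 h2 h3
  refine h1.trans (Real.exp_le_exp.mpr ?_)
  have h4 := Real.quadratic_le_exp_of_nonneg (show 0 ≤ c * X by positivity)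
  rw [div_le_iff₀ (by positivity)] at h2
  have h5 : (k + 1) * X ≤ (c * X) ^ 2 / 2 := by nlinarith
  have h6 : 0 ≤ c * X := by positivity
  linarith

lemma numbers (d : ℕ) : ∀ᶠ X : ℝ in Filter.atTop,
    Real.exp (-Real.exp (99 / 10000 * X)) +
      (3 * (Real.exp (Real.exp (99 / 10000 * X)) + 4 * d * Real.exp (1683 / 800 * X))) ^ d *
        (2 * Real.exp (-(Real.exp (1 / 100 * X)) ^ 2 / 2)) ≤ Real.exp (-Real.exp (1 / 110 * X)) := by
  filter_upwards [grow2 (show (0 : ℝ) < 1683 / 800 by norm_num) (show (0 : ℝ) < 99 / 10000 by norm_num)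
    (4 * d), grow (show (99 / 10000 : ℝ) < 1 / 50 by norm_num) (2 * (d + 1 + d * Real.log 6 + Real.log 2)),
    grow (show (1 / 110 : ℝ) < 99 / 10000 by norm_num) (1 + Real.log 2),
    Filter.eventually_ge_atTop (0 : ℝ)] with X h1 h2 h3 h4
  obtain ⟨A, hA⟩ : ∃ A, A = Real.exp (99 / 10000 * X) := ⟨_, rfl⟩
  obtain ⟨C, hC⟩ : ∃ C, C = Real.exp (1 / 50 * X) := ⟨_, rfl⟩
  obtain ⟨D, hD⟩ : ∃ D, D = Real.exp (1 / 110 * X) := ⟨_, rfl⟩
  have eC : (Real.exp (1 / 100 * X)) ^ 2 = C := by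
    rw [hC, ← Real.exp_nat_mul]; congr 1; push_cast; ring
  rw [eC, ← hA, ← hD]
  rw [← hA] at h1 h2 h3
  rw [← hC] at h2
  rw [← hD] at h3
  have hA1 : 1 ≤ A := by rw [hA]; exact Real.one_le_exp (by positivity)
  have hD1 : 1 ≤ D := by rw [hD]; exact Real.one_le_exp (by positivity)
  have hl6 : 0 ≤ Real.log 6 := Real.log_nonneg (by norm_num)
  have hl2 : 0 ≤ Real.log 2 := Real.log_nonneg (by norm_num)
  have hd0 : (0 : ℝ) ≤ d := Nat.cast_nonneg d
  have e6 : Real.exp (Real.log 6) = 6 := Real.exp_log (by norm_num)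
  have e2 : Real.exp (Real.log 2) = 2 := Real.exp_log (by norm_num)
  have s1 : (3 * (Real.exp A + 4 * d * Real.exp (1683 / 800 * X))) ^ d ≤
      Real.exp (d * (Real.log 6 + A)) := by
    have g1 : 3 * (Real.exp A + 4 * d * Real.exp (1683 / 800 * X)) ≤ Real.exp (Real.log 6 + A) := by
      rw [Real.exp_add, e6]
      linarith
    calc _ ≤ (Real.exp (Real.log 6 + A)) ^ d := pow_le_pow_left₀ (by positivity) g1 d
      _ = _ := by rw [← Real.exp_nat_mul]
  have s2 : (3 * (Real.exp A + 4 * d * Real.exp (1683 / 800 * X))) ^ d * (2 * Real.exp (-C / 2)) ≤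
      Real.exp (-A) := by
    calc _ ≤ Real.exp (d * (Real.log 6 + A)) * (2 * Real.exp (-C / 2)) := by gcongr
      _ = Real.exp (d * (Real.log 6 + A) + (Real.log 2 + -C / 2)) := by
          rw [Real.exp_add, Real.exp_add (Real.log 2), e2]
      _ ≤ _ := by
          apply Real.exp_le_exp.mpr
          have : d * Real.log 6 ≤ d * Real.log 6 * A := le_mul_of_one_le_right (by positivity) hA1
          have : Real.log 2 ≤ Real.log 2 * A := le_mul_of_one_le_right hl2 hA1
          nlinarith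
  have s3 : 2 * Real.exp (-A) ≤ Real.exp (-D) := by
    have : 2 * Real.exp (-A) = Real.exp (Real.log 2 + -A) := by rw [Real.exp_add, e2]
    rw [this]
    apply Real.exp_le_exp.mpr
    nlinarith
  linarith

/-! ### The event -/

/-- **Local smoothing for the Gaussian potential.** -/
theorem gauss_SM (hTH : S_THIRD) (hFL : S_FLUCT) (hIN : S_INV) (hMB : S_MB) (hCO : S_CONC)
    (hSU : S_SUP) (hSI : S_SITE) (hQB : S_QB) (hLO : S_LOW) (hAD : S_ADM)
    (d : ℕ) (hd : 3 ≤ d) : ∃ X0 K : ℝ, 1 ≤ X0 ∧ 0 < K ∧ ∀ X : ℝ, X0 ≤ X →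
      ∃ G : Set (Zd d → ℝ), MeasurableSet G ∧
      1 - Real.exp (-Real.exp (1 / 110 * X)) ≤
        (Measure.infinitePi fun _ : Zd d => gaussianReal 0 1).real G ∧
      ∀ ξ ∈ G, SM1 d (Real.exp (-X)) (Real.exp (Real.exp (1 / 110 * X)))
        (Real.exp (-(1683 / 800) * X)) (K * X) ξ := by
  obtain ⟨y0, h0⟩ := engine hTH hFL hIN hMB hCO hSU hSI hQB hLO hAD d hd 1 one_pos
  obtain ⟨X1, hX1⟩ := Filter.eventually_atTop.1 (numbers d)
  have hC1 := C1_ge
  refine ⟨max 1 (max X1 (100 / 99 * y0)), 2 * (192 * (C1 * (17 / 8))), le_max_left _ _, by positivity, ?_⟩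
  intro X hX
  have hXa : 1 ≤ X := (le_max_left _ _).trans hX
  have hXb : X1 ≤ X := (le_max_left _ _).trans ((le_max_right _ _).trans hX)
  have hXc : 100 / 99 * y0 ≤ X := (le_max_right _ _).trans ((le_max_right _ _).trans hX)
  obtain ⟨y, hy⟩ : ∃ y, y = 99 / 100 * X := ⟨_, rfl⟩
  obtain ⟨B, hB⟩ : ∃ B, B = Real.exp (1 / 100 * X) := ⟨_, rfl⟩
  have hB0 : 0 < B := by rw [hB]; positivity
  have hν : IsProbabilityMeasure ((gaussianReal 0 1).map (tr B)) :=
    Measure.isProbabilityMeasure_map (tr_meas B).aemeasurable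
  obtain ⟨G0, hG0, hP0, hb⟩ := h0 y (by rw [hy]; linarith) ((gaussianReal 0 1).map (tr B)) hν (by
    rw [ae_map_iff (tr_meas B).aemeasurable (measurableSet_le (by fun_prop) measurable_const)]
    exact Filter.Eventually.of_forall fun s => tr_le hB0 s) (by
    rw [integral_map (tr_meas B).aemeasurable (by fun_prop)]
    exact tr_mean B)
  have ey : Real.exp (y / 100) = Real.exp (99 / 10000 * X) := by
    rw [hy]; congr 1; ring
  have et : Real.exp (-(17 / 8) * y) = Real.exp (-(1683 / 800) * X) := by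
    rw [hy]; congr 1; ring
  rw [ey] at hP0 hb
  rw [et] at hb
  obtain ⟨ρ, hρ⟩ : ∃ ρ, ρ = Real.exp (Real.exp (99 / 10000 * X)) := ⟨_, rfl⟩
  obtain ⟨t, ht⟩ : ∃ t, t = Real.exp (-(1683 / 800) * X) := ⟨_, rfl⟩
  obtain ⟨R, hR⟩ : ∃ R, R = 4 * d * Real.exp (1683 / 800 * X) := ⟨_, rfl⟩
  have ht0 : 0 < t := by rw [ht]; positivity
  have hd3 : (3 : ℝ) ≤ d := by exact_mod_cast hd
  have hR0 : 0 < R := by rw [hR]; positivity
  have hρ1 : 1 ≤ ρ := by rw [hρ]; exact Real.one_le_exp (Real.exp_pos _).le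
  have htR : 4 * d ≤ t * R := by
    apply le_of_eq
    rw [ht, hR]
    have : Real.exp (-(1683 / 800) * X) * Real.exp (1683 / 800 * X) = 1 := by
      rw [← Real.exp_add]; simp
    linear_combination (-4 * (d : ℝ)) * this
  have hTm : Measurable (fun (ξ : Zd d → ℝ) x => tr B (ξ x)) :=
    measurable_pi_lambda _ fun x => (tr_meas B).comp (measurable_pi_apply x)
  have hlaw : (Measure.infinitePi fun _ : Zd d => gaussianReal 0 1).map (fun ξ x => tr B (ξ x)) =
      Measure.infinitePi fun _ : Zd d => (gaussianReal 0 1).map (tr B) :=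
    Measure.infinitePi_map_pi (μ := fun _ : Zd d => gaussianReal 0 1)
      (f := fun _ (s : ℝ) => tr B s) (fun _ => tr_meas B)
  obtain ⟨N, hN⟩ : ∃ N : ℕ, N = ⌊ρ + R⌋₊ := ⟨_, rfl⟩
  have hEm : ∀ x : Zd d, MeasurableSet {ξ : Zd d → ℝ | ¬ |ξ x| ≤ B} := fun x =>
    (measurableSet_le ((measurable_pi_apply x).abs) measurable_const).compl
  have hGm : MeasurableSet ((fun (ξ : Zd d → ℝ) x => tr B (ξ x)) ⁻¹' G0) := hTm hG0
  refine ⟨((fun ξ x => tr B (ξ x)) ⁻¹' G0) ∩ (⋃ x ∈ box d N, {ξ | ¬ |ξ x| ≤ B})ᶜ, ?_, ?_, ?_⟩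
  · exact hGm.inter (Finset.measurableSet_biUnion _ fun x _ => hEm x).compl
  · obtain ⟨Pm, hPm⟩ : ∃ Pm : Measure (Zd d → ℝ), Pm = Measure.infinitePi fun _ : Zd d => gaussianReal 0 1 :=
      ⟨_, rfl⟩
    have hPp : IsProbabilityMeasure Pm := by rw [hPm]; infer_instance
    rw [← hPm] at hlaw ⊢
    have p1 : 1 - Real.exp (-Real.exp (99 / 10000 * X)) ≤
        Pm.real ((fun (ξ : Zd d → ℝ) x => tr B (ξ x)) ⁻¹' G0) := by
      rw [← map_measureReal_apply hTm hG0, hlaw]
      exact hP0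
    have p2 : Pm.real (⋃ x ∈ box d N, {ξ : Zd d → ℝ | ¬ |ξ x| ≤ B}) ≤
        (2 * N + 1) ^ d * (2 * Real.exp (-B ^ 2 / 2)) := by
      refine (measureReal_biUnion_finset_le _ _).trans ?_
      have q : ∀ x ∈ box d N, Pm.real {ξ : Zd d → ℝ | ¬ |ξ x| ≤ B} ≤ 2 * Real.exp (-B ^ 2 / 2) := by
        intro x _
        refine le_trans (le_of_eq ?_) (tail hB0.le)
        have hev := measurePreserving_eval_infinitePi (fun _ : Zd d => gaussianReal 0 1) x
        have hms : MeasurableSet {s : ℝ | ¬ |s| ≤ B} :=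
          (measurableSet_le (measurable_id.abs) measurable_const).compl
        have := hev.measureReal_preimage hms.nullMeasurableSet
        rw [hPm, ← this]
        rfl
      refine (Finset.sum_le_sum q).trans (le_of_eq ?_)
      rw [Finset.sum_const, box_card, nsmul_eq_mul]
      push_cast
      ring
    have p3 : (2 * (N : ℝ) + 1) ^ d ≤ (3 * (ρ + R)) ^ d := by
      apply pow_le_pow_left₀ (by positivity)
      have := Nat.floor_le (show 0 ≤ ρ + R by positivity)
      rw [← hN] at this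
      linarith
    have p4 := hX1 X hXb
    rw [← hB, ← hρ, ← hR] at p4
    have p5 : (2 * (N : ℝ) + 1) ^ d * (2 * Real.exp (-B ^ 2 / 2)) ≤
        (3 * (ρ + R)) ^ d * (2 * Real.exp (-B ^ 2 / 2)) := by gcongr
    have p6 := measureReal_union_add_inter (μ := Pm)
      (s := (fun (ξ : Zd d → ℝ) x => tr B (ξ x)) ⁻¹' G0)
      (t := (⋃ x ∈ box d N, {ξ : Zd d → ℝ | ¬ |ξ x| ≤ B})ᶜ)
      (Finset.measurableSet_biUnion _ fun x _ => hEm x).compl
    have p7 : Pm.real (((fun (ξ : Zd d → ℝ) x => tr B (ξ x)) ⁻¹' G0) ∪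
      (⋃ x ∈ box d N, {ξ : Zd d → ℝ | ¬ |ξ x| ≤ B})ᶜ) ≤ 1 := measureReal_le_one
    have p8 := probReal_add_probReal_compl (μ := Pm)
      (Finset.measurableSet_biUnion (box d N) fun x _ => hEm x)
    linarith
  · rintro ξ ⟨hξ1, hξ2⟩
    have hbd : ∀ x : Zd d, ‖x‖ ≤ ρ + R → |ξ x| ≤ B := by
      intro x hx
      by_contra hcon
      apply hξ2
      simp only [Set.mem_iUnion]
      exact ⟨x, by rw [hN]; exact mem_box hx, hcon⟩
    have h1 : SM1 d (Real.exp (-1 * y)) (Real.exp (Real.exp (99 / 10000 * X)))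
        (Real.exp (-(1683 / 800) * X)) (192 * (C1 * (17 / 8 * y))) (fun x => tr B (ξ x)) :=
      hb (fun x => tr B (ξ x)) hξ1
    rw [← hρ, ← ht] at h1
    have hg0 : 0 ≤ 192 * (C1 * (17 / 8 * y)) := by
      have : 0 ≤ y := by rw [hy]; linarith
      positivity
    have h2 := SM1_cut (σ := Real.exp (-X)) (ξ := ξ) ht0 hg0 hR0 htR h1 (by
      intro x hx
      unfold tr
      rw [if_pos (hbd x hx), hB, hy]
      have : Real.exp (-1 * (99 / 100 * X)) = Real.exp (-X) * Real.exp (1 / 100 * X) := by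
        rw [← Real.exp_add]; congr 1; ring
      rw [this]
      have : Real.exp (1 / 100 * X) ≠ 0 := (Real.exp_pos _).ne'
      field_simp)
    rw [← ht]
    intro E u f hu hf hE a ha
    have ha' : ‖a‖ ≤ ρ := by
      refine ha.trans ?_
      rw [hρ]
      apply Real.exp_le_exp.mpr
      apply Real.exp_le_exp.mpr
      apply mul_le_mul_of_nonneg_right (by norm_num) (by linarith)
    refine (h2 E u f hu hf hE a ha').trans ?_
    have hs : 0 ≤ 5 * t * ∑' x, u x ^ 2 + 2 * t⁻¹ * ∑' x, f x ^ 2 := by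
      have e1 : 0 ≤ ∑' x, u x ^ 2 := tsum_nonneg fun x => sq_nonneg _
      have e2 : 0 ≤ ∑' x, f x ^ 2 := tsum_nonneg fun x => sq_nonneg _
      have : 0 < t⁻¹ := inv_pos.mpr ht0
      positivity
    apply mul_le_mul_of_nonneg_right _ hs
    rw [hy]
    have : 0 ≤ C1 * X := by positivity
    nlinarith

end Q299.GB
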