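import Pool.Agent.W788.BK.Flat1

/-!
Local smoothing only sees the potential in a large box: the potential may be replaced outside.
-/

set_option autoImplicit false
set_option linter.unusedSectionVars false

open scoped BigOperators
open MeasureTheory

namespace Q299.GB

open Pool.Agent.W788.LD.Main Pool.Agent.W788.LD.Spec Pool.Agent.W788.BK
open Pool.Agent.H4R2.LO (Zd)

variable {d : ℕ}

lemma nrm_single (i : Fin d) : ‖(Pi.single i 1 : Zd d)‖ ≤ 1 := by
  rw [pi_norm_le_iff_of_nonneg zero_le_one]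
  intro j
  by_cases h : j = i
  · subst h; simp
  · rw [Pi.single_eq_of_ne h]; simp

/-- the cutoff -/
noncomputable def chi (a : Zd d) (R : ℝ) (x : Zd d) : ℝ := max 0 (1 - ‖x - a‖ / R)

lemma chi_nonneg (a : Zd d) (R : ℝ) (x : Zd d) : 0 ≤ chi a R x := le_max_left _ _

lemma chi_le (a : Zd d) {R : ℝ} (hR : 0 < R) (x : Zd d) : chi a R x ≤ 1 := by
  unfold chi
  apply max_le zero_le_one
  have : 0 ≤ ‖x - a‖ / R := by positivity
  linarith

lemma chi_self (a : Zd d) (R : ℝ) : chi a R a = 1 := by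
  unfold chi
  simp

lemma chi_lip (a : Zd d) {R : ℝ} (hR : 0 < R) (x e : Zd d) (he : ‖e‖ ≤ 1) :
    |chi a R (x + e) - chi a R x| ≤ 1 / R := by
  have h1 : |‖x + e - a‖ - ‖x - a‖| ≤ 1 := by
    refine (abs_norm_sub_norm_le _ _).trans ?_
    have : x + e - a - (x - a) = e := by abel
    rw [this]
    exact he
  unfold chi
  refine (abs_max_sub_max_le_max _ _ _ _).trans ?_
  rw [sub_self, abs_zero]
  apply max_le (by positivity)
  have : 1 - ‖x + e - a‖ / R - (1 - ‖x - a‖ / R) = -((‖x + e - a‖ - ‖x - a‖) / R) := by ring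
  rw [this, abs_neg, abs_div, abs_of_pos hR]
  gcongr

lemma chi_zero (a : Zd d) {R : ℝ} (hR : 0 < R) (x : Zd d) (h : R ≤ ‖x - a‖) : chi a R x = 0 := by
  unfold chi
  apply max_eq_left
  rw [sub_nonpos, le_div_iff₀ hR]
  linarith

/-- **Transfer.** -/
theorem SM1_cut {lam σ ρ t g R : ℝ} (ht : 0 < t) (hg : 0 ≤ g) (hR : 0 < R)
    (hRt : 4 * d ≤ t * R) {ξ' ξ : Zd d → ℝ} (h : SM1 d lam ρ t g ξ')
    (heq : ∀ x : Zd d, ‖x‖ ≤ ρ + R → lam * ξ' x = σ * ξ x) : SM1 d σ ρ t (2 * g) ξ := by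
  intro E u f hu hf hE a ha
  obtain ⟨U, hU⟩ : ∃ U, U = ∑' x, u x ^ 2 := ⟨_, rfl⟩
  obtain ⟨F, hF⟩ : ∃ F, F = ∑' x, f x ^ 2 := ⟨_, rfl⟩
  rw [← hU, ← hF]
  have hU0 : 0 ≤ U := by rw [hU]; exact tsum_nonneg fun x => sq_nonneg _
  have hF0 : 0 ≤ F := by rw [hF]; exact tsum_nonneg fun x => sq_nonneg _
  obtain ⟨c, hc⟩ : ∃ c : Zd d → ℝ, c = chi a R := ⟨_, rfl⟩
  have c0 : ∀ x, 0 ≤ c x := fun x => by rw [hc]; exact chi_nonneg _ _ _
  have c1 : ∀ x, c x ≤ 1 := fun x => by rw [hc]; exact chi_le _ hR _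
  have cl : ∀ x (i : Fin d), |c (x + Pi.single i 1) - c x| ≤ 1 / R := fun x i => by
    rw [hc]; exact chi_lip a hR x _ (nrm_single i)
  have cl' : ∀ x (i : Fin d), |c (x - Pi.single i 1) - c x| ≤ 1 / R := fun x i => by
    have h0 : ‖-(Pi.single i 1 : Zd d)‖ ≤ 1 := by rw [norm_neg]; exact nrm_single i
    rw [hc, sub_eq_add_neg x]
    exact chi_lip a hR x _ h0
  obtain ⟨w, hw⟩ : ∃ w : Zd d → ℝ, w = fun x => c x * u x := ⟨_, rfl⟩
  obtain ⟨D, hD⟩ : ∃ D : Zd d → ℝ, D = fun x => ∑ i : Fin d,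
    ((c (x + Pi.single i 1) - c x) * u (x + Pi.single i 1) +
      (c (x - Pi.single i 1) - c x) * u (x - Pi.single i 1)) := ⟨_, rfl⟩
  obtain ⟨k, hk⟩ : ∃ k : Zd d → ℝ, k = fun x => c x * f x + D x := ⟨_, rfl⟩
  -- summability
  have sp : ∀ i : Fin d, Summable fun x => u (x + Pi.single i 1) ^ 2 := fun i =>
    sum_shiftR u (Pi.single i 1) hu
  have sm : ∀ i : Fin d, Summable fun x => u (x - Pi.single i 1) ^ 2 := fun i => by
    have h1 := sum_shiftR u (-(Pi.single i 1 : Zd d)) hu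
    simp only [← sub_eq_add_neg] at h1
    exact h1
  have tp : ∀ i : Fin d, ∑' x, u (x + Pi.single i 1) ^ 2 = U := fun i => by
    rw [hU]; exact tsum_shiftR u (Pi.single i 1)
  have tm : ∀ i : Fin d, ∑' x, u (x - Pi.single i 1) ^ 2 = U := fun i => by
    have h1 := tsum_shiftR u (-(Pi.single i 1 : Zd d))
    simp only [← sub_eq_add_neg] at h1
    rw [hU]; exact h1
  have hDle : ∀ x, D x ^ 2 ≤ (2 * d / R ^ 2) * ∑ i : Fin d,
      (u (x + Pi.single i 1) ^ 2 + u (x - Pi.single i 1) ^ 2) := by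
    intro x
    rw [hD]
    simp only
    have h1 := sq_sum_le_card_mul_sum_sq (s := (Finset.univ : Finset (Fin d)))
      (f := fun i => ((c (x + Pi.single i 1) - c x) * u (x + Pi.single i 1) +
      (c (x - Pi.single i 1) - c x) * u (x - Pi.single i 1)))
    rw [Finset.card_univ, Fintype.card_fin] at h1
    refine h1.trans ?_
    have h2 : ∑ i : Fin d, ((c (x + Pi.single i 1) - c x) * u (x + Pi.single i 1) +
      (c (x - Pi.single i 1) - c x) * u (x - Pi.single i 1)) ^ 2 ≤ ∑ i : Fin d,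
        (2 / R ^ 2) * (u (x + Pi.single i 1) ^ 2 + u (x - Pi.single i 1) ^ 2) := by
      refine Finset.sum_le_sum fun i _ => ?_
      have e1 : (c (x + Pi.single i 1) - c x) ^ 2 ≤ (1 / R) ^ 2 := by
        rw [← sq_abs]; exact pow_le_pow_left₀ (abs_nonneg _) (cl x i) 2
      have e2 : (c (x - Pi.single i 1) - c x) ^ 2 ≤ (1 / R) ^ 2 := by
        rw [← sq_abs]; exact pow_le_pow_left₀ (abs_nonneg _) (cl' x i) 2
      have e3 : ((c (x + Pi.single i 1) - c x) * u (x + Pi.single i 1) +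
        (c (x - Pi.single i 1) - c x) * u (x - Pi.single i 1)) ^ 2 ≤
        2 * ((c (x + Pi.single i 1) - c x) ^ 2 * u (x + Pi.single i 1) ^ 2 +
          (c (x - Pi.single i 1) - c x) ^ 2 * u (x - Pi.single i 1) ^ 2) := by
        nlinarith [sq_nonneg ((c (x + Pi.single i 1) - c x) * u (x + Pi.single i 1) -
          (c (x - Pi.single i 1) - c x) * u (x - Pi.single i 1))]
      refine e3.trans ?_
      have e4 : (c (x + Pi.single i 1) - c x) ^ 2 * u (x + Pi.single i 1) ^ 2 ≤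
          (1 / R) ^ 2 * u (x + Pi.single i 1) ^ 2 := by gcongr
      have e5 : (c (x - Pi.single i 1) - c x) ^ 2 * u (x - Pi.single i 1) ^ 2 ≤
          (1 / R) ^ 2 * u (x - Pi.single i 1) ^ 2 := by gcongr
      calc _ ≤ 2 * ((1 / R) ^ 2 * u (x + Pi.single i 1) ^ 2 +
            (1 / R) ^ 2 * u (x - Pi.single i 1) ^ 2) := by linarith
        _ = _ := by rw [div_pow, one_pow]; ring
    calc (d : ℝ) * _ ≤ d * _ := mul_le_mul_of_nonneg_left h2 (Nat.cast_nonneg d)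
      _ = _ := by rw [← Finset.mul_sum]; ring
  have sS : Summable fun x : Zd d => ∑ i : Fin d, (u (x + Pi.single i 1) ^ 2 + u (x - Pi.single i 1) ^ 2) :=
    summable_sum fun i _ => (sp i).add (sm i)
  have tS : ∑' x : Zd d, ∑ i : Fin d, (u (x + Pi.single i 1) ^ 2 + u (x - Pi.single i 1) ^ 2) =
      2 * d * U := by
    rw [Summable.tsum_finsetSum fun i _ => (sp i).add (sm i)]
    have : ∀ i ∈ (Finset.univ : Finset (Fin d)), ∑' x : Zd d, (u (x + Pi.single i 1) ^ 2 +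
        u (x - Pi.single i 1) ^ 2) = 2 * U := by
      intro i _
      rw [(sp i).tsum_add (sm i), tp, tm]; ring
    rw [Finset.sum_congr rfl this, Finset.sum_const, Finset.card_univ, Fintype.card_fin, nsmul_eq_mul]
    ring
  have hkle : ∀ x, k x ^ 2 ≤ 2 * f x ^ 2 + 2 * ((2 * d / R ^ 2) * ∑ i : Fin d,
      (u (x + Pi.single i 1) ^ 2 + u (x - Pi.single i 1) ^ 2)) := by
    intro x
    have e1 : (c x * f x) ^ 2 ≤ f x ^ 2 := by
      rw [mul_pow]
      have : c x ^ 2 ≤ 1 := pow_le_one₀ (c0 x) (c1 x)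
      nlinarith [sq_nonneg (f x)]
    have e2 := hDle x
    have e3 : k x ^ 2 ≤ 2 * (c x * f x) ^ 2 + 2 * D x ^ 2 := by
      rw [hk]
      nlinarith [sq_nonneg (c x * f x - D x)]
    linarith
  have sk' : Summable fun x : Zd d => 2 * f x ^ 2 + 2 * ((2 * d / R ^ 2) * ∑ i : Fin d,
      (u (x + Pi.single i 1) ^ 2 + u (x - Pi.single i 1) ^ 2)) :=
    (hf.mul_left 2).add ((sS.mul_left _).mul_left 2)
  have sk : Summable fun x => k x ^ 2 := Summable.of_nonneg_of_le (fun x => sq_nonneg _) hkle sk'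
  have tk : ∑' x, k x ^ 2 ≤ 2 * F + 8 * d ^ 2 / R ^ 2 * U := by
    refine (sk.tsum_le_tsum hkle sk').trans (le_of_eq ?_)
    rw [(hf.mul_left 2).tsum_add ((sS.mul_left _).mul_left 2), tsum_mul_left, tsum_mul_left,
      tsum_mul_left, tS, hF]
    ring
  have hwle : ∀ x, w x ^ 2 ≤ u x ^ 2 := by
    intro x
    rw [hw]
    simp only
    rw [mul_pow]
    have : c x ^ 2 ≤ 1 := pow_le_one₀ (c0 x) (c1 x)
    nlinarith [sq_nonneg (u x)]
  have sw : Summable fun x => w x ^ 2 := Summable.of_nonneg_of_le (fun x => sq_nonneg _) hwle hu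
  have tw : ∑' x, w x ^ 2 ≤ U := by rw [hU]; exact sw.tsum_le_tsum hwle hu
  -- the equation
  have hkey : ∀ x, ∑ i, (w (x + Pi.single i 1) + w (x - Pi.single i 1)) + lam * ξ' x * w x =
      E * w x + k x := by
    intro x
    have e1 : ∑ i, (w (x + Pi.single i 1) + w (x - Pi.single i 1)) =
        c x * ∑ i, (u (x + Pi.single i 1) + u (x - Pi.single i 1)) + D x := by
      rw [hw, hD]
      simp only
      rw [Finset.mul_sum, ← Finset.sum_add_distrib]
      exact Finset.sum_congr rfl fun i _ => by ring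
    have e2 : lam * ξ' x * w x = σ * ξ x * w x := by
      by_cases hx : R ≤ ‖x - a‖
      · have : w x = 0 := by
          rw [hw, hc]
          simp only
          rw [chi_zero a hR x hx, zero_mul]
        rw [this, mul_zero, mul_zero]
      · rw [heq x]
        have h1 : ‖x‖ ≤ ‖x - a‖ + ‖a‖ := by
          have := norm_add_le (x - a) a
          rwa [sub_add_cancel] at this
        linarith [not_le.mp hx]
    rw [e1, e2, hk, hw]
    simp only
    have := hE x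
    linear_combination (c x) * this
  have hfin := h E w k sw sk hkey a ha
  have hwa : w a = u a := by
    rw [hw, hc]
    simp only
    rw [chi_self, one_mul]
  rw [hwa] at hfin
  refine hfin.trans ?_
  have hd0 : (0 : ℝ) ≤ d := Nat.cast_nonneg d
  have q1 : 16 * (d : ℝ) ^ 2 / (t * R ^ 2) ≤ t := by
    rw [div_le_iff₀ (by positivity)]
    have : (4 * (d : ℝ)) ^ 2 ≤ (t * R) ^ 2 := pow_le_pow_left₀ (by positivity) hRt 2
    nlinarith
  have q2 : 2 * t⁻¹ * (8 * d ^ 2 / R ^ 2 * U) = 16 * (d : ℝ) ^ 2 / (t * R ^ 2) * U := by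
    field_simp
    ring
  have q3 : 16 * (d : ℝ) ^ 2 / (t * R ^ 2) * U ≤ t * U := mul_le_mul_of_nonneg_right q1 hU0
  have hti : 0 < t⁻¹ := inv_pos.mpr ht
  calc g * (5 * t * ∑' x, w x ^ 2 + 2 * t⁻¹ * ∑' x, k x ^ 2)
      ≤ g * (5 * t * U + 2 * t⁻¹ * (2 * F + 8 * d ^ 2 / R ^ 2 * U)) := by gcongr
    _ = g * (5 * t * U + 4 * t⁻¹ * F + 2 * t⁻¹ * (8 * d ^ 2 / R ^ 2 * U)) := by ring
    _ ≤ g * (5 * t * U + 4 * t⁻¹ * F + t * U) := by
        rw [q2]
        gcongr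
    _ ≤ 2 * g * (5 * t * U + 2 * t⁻¹ * F) := by
        have : 0 ≤ g * (t * U) := by positivity
        nlinarith

/-- local smoothing at one site, for complex functions -/
def LS (d : ℕ) (V : Zd d → ℝ) (t g : ℝ) (a : Zd d) : Prop :=
  ∀ (E : ℝ) (u f : Zd d → ℂ), (Summable fun x => ‖u x‖ ^ 2) → (Summable fun x => ‖f x‖ ^ 2) →
    (∀ x, S u x + (V x : ℂ) * u x = (E : ℂ) * u x + f x) →
    ‖u a‖ ^ 2 ≤ g * (5 * t * ∑' x, ‖u x‖ ^ 2 + 2 * t⁻¹ * ∑' x, ‖f x‖ ^ 2)

theorem LS_of {σ ρ t g : ℝ} (ht : 0 < t) (ht1 : t ≤ 1 / 2) (hg : 0 ≤ g) {ξ : Zd d → ℝ}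
    (h : SM1 d σ ρ t g ξ) {a : Zd d} (ha : ‖a‖ ≤ ρ) : LS d (fun x => σ * ξ x) t g a := by
  intro E u f hu hf heq
  have h1 := SM_complex σ ρ t _ ξ (SM1_SM σ ρ t g ht hg ξ h) E t le_rfl ht1 u f hu hf heq a ha
  rw [div_self ht.ne', mul_one] at h1
  exact h1

end Q299.GB
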